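import Pool.Agent.helper82.OG.Spec

/-!
# Project og: LFT: the left side of the identity
-/

set_option autoImplicit false

open Finset

noncomputable section

namespace Pool.Agent.OG

open Pool.Agent.EP

theorem LFT_one : ∀ x : ZMod 2, x ≠ 0 → x = 1 := by decide

theorem LFT_ac0 : ac 0 = 0 := by
  unfold ac
  rw [if_neg]
  rintro ⟨h, -⟩
  norm_num at h

theorem LFT_JG0 (r : ℕ) : JG ac r 0 = 0 := by
  unfold JG
  apply Finset.sum_eq_zero
  intro d _
  rw [mul_zero, Int.zero_ediv, LFT_ac0]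

/-- the row condition as an equation -/
theorem LFT_eq (a r M m u : ℕ) (h : (m, u) ∈ Rp a r M) :
    u % 2 = 1 ∧ 2 ^ a * m + 3 * u ^ 2 = M ∧ JG ac r (m : ℤ) ≠ 0 ∧ 0 < m := by
  unfold Rp at h
  rw [mem_filter, mem_product, mem_Ioc] at h
  exact ⟨h.2.1, h.2.2.1, h.2.2.2, h.1.1.1⟩

theorem LFT_mem (a r M m u : ℕ) (hm : 0 < m) (hu : u % 2 = 1) (h : 2 ^ a * m + 3 * u ^ 2 = M)
    (hJ : JG ac r (m : ℤ) ≠ 0) : (m, u) ∈ Rp a r M := by
  unfold Rp
  rw [mem_filter, mem_product, mem_Ioc, mem_Ioc]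
  have h2 : 1 ≤ 2 ^ a := Nat.one_le_two_pow
  have hu0 : 0 < u := by omega
  have h3 : u ≤ u ^ 2 := by nlinarith
  have h4 : m ≤ 2 ^ a * m := by nlinarith
  exact ⟨⟨⟨hm, by omega⟩, ⟨hu0, by omega⟩⟩, hu, h, hJ⟩

theorem LFT (hJN : JN_stmt) : LFT_stmt := by
  classical
  intro a r M hr hM
  have h2a : (0 : ℤ) < 2 ^ a := by positivity
  have hmem : ∀ u : ℕ, u ∈ us a r (M : ℤ) ↔
      (u < M + r * 2 ^ a + 1 ∧ u % 2 = 1 ∧ (2 ^ a : ℤ) ∣ (M : ℤ) - 3 * (u : ℤ) ^ 2) := by
    intro u
    unfold us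
    rw [mem_filter, mem_range]
    have : ((M : ℤ) + (r : ℤ) * 2 ^ a).toNat = M + r * 2 ^ a := by
      have h : ((M : ℤ) + (r : ℤ) * 2 ^ a) = ((M + r * 2 ^ a : ℕ) : ℤ) := by push_cast; ring
      rw [h, Int.toNat_natCast]
    rw [this]
  have hterm : ∀ u ∈ us a r (M : ℤ), JG ac r (((M : ℤ) - 3 * (u : ℤ) ^ 2) / 2 ^ a) =
      (if ∃ m, (m, u) ∈ Rp a r M then (1 : ZMod 2) else 0) +
      (if 3 * u ^ 2 = M + 2 ^ a * r then (1 : ZMod 2) else 0) := by
    intro u hu
    rw [hmem] at hu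
    obtain ⟨hu1, hu2, c, hc⟩ := hu
    rw [hc, Int.mul_ediv_cancel_left _ h2a.ne']
    have hI : (3 * u ^ 2 = M + 2 ^ a * r) ↔ c = -(r : ℤ) := by
      constructor
      · intro h
        have h' : (3 * (u : ℤ) ^ 2) = M + 2 ^ a * r := by exact_mod_cast h
        have : (2 : ℤ) ^ a * c = 2 ^ a * (-(r : ℤ)) := by rw [← hc, h']; ring
        exact mul_left_cancel₀ h2a.ne' this
      · intro h
        rw [h] at hc
        have : (3 * (u : ℤ) ^ 2) = M + 2 ^ a * r := by linear_combination (-1 : ℤ) * hc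
        exact_mod_cast this
    have hPc : ∀ m, (m, u) ∈ Rp a r M → c = m := by
      intro m hm
      obtain ⟨-, h, -, -⟩ := LFT_eq a r M m u hm
      have h' : (2 : ℤ) ^ a * m + 3 * (u : ℤ) ^ 2 = M := by exact_mod_cast h
      have : (2 : ℤ) ^ a * c = 2 ^ a * (m : ℤ) := by rw [← hc]; linear_combination (-1 : ℤ) * h'
      exact mul_left_cancel₀ h2a.ne' this
    rcases lt_trichotomy c 0 with hc0 | hc0 | hc0
    · rw [hJN r c hr hc0, if_neg (c := ∃ m, (m, u) ∈ Rp a r M), zero_add]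
      · simp only [hI]
      · rintro ⟨m, hm⟩
        have := hPc m hm
        omega
    · rw [hc0, LFT_JG0, if_neg, if_neg, add_zero]
      · rw [hI, hc0]; omega
      · rintro ⟨m, hm⟩
        have h1 := hPc m hm
        have h2 := (LFT_eq a r M m u hm).2.2.2
        omega
    · rw [if_neg (c := 3 * u ^ 2 = M + 2 ^ a * r), add_zero]
      · obtain ⟨m, rfl⟩ := Int.eq_ofNat_of_zero_le hc0.le
        have hm0 : 0 < m := by exact_mod_cast hc0
        by_cases hJ : JG ac r (m : ℤ) = 0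
        · rw [hJ, if_neg]
          rintro ⟨m', hm'⟩
          have h1 := hPc m' hm'
          have h2 : m = m' := by exact_mod_cast h1
          rw [← h2] at hm'
          exact (LFT_eq a r M m u hm').2.2.1 hJ
        · rw [LFT_one _ hJ, if_pos]
          refine ⟨m, LFT_mem a r M m u hm0 hu2 ?_ hJ⟩
          have : (2 : ℤ) ^ a * m + 3 * (u : ℤ) ^ 2 = M := by linear_combination (-1 : ℤ) * hc
          exact_mod_cast this
      · rw [hI]; omega
  rw [Finset.sum_congr rfl hterm, Finset.sum_add_distrib, Finset.sum_boole, Finset.sum_boole]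
  congr 1
  · congr 1
    have himg : (us a r (M : ℤ)).filter (fun u => ∃ m, (m, u) ∈ Rp a r M) =
        (Rp a r M).image Prod.snd := by
      ext u
      rw [mem_filter, mem_image]
      constructor
      · rintro ⟨-, m, hm⟩
        exact ⟨(m, u), hm, rfl⟩
      · rintro ⟨⟨m, v⟩, hm, rfl⟩
        refine ⟨?_, m, hm⟩
        obtain ⟨h1, h2, -, -⟩ := LFT_eq a r M m v hm
        rw [hmem]
        refine ⟨?_, h1, ⟨m, ?_⟩⟩
        · have h3 : v ≤ v ^ 2 := by
            rcases Nat.eq_zero_or_pos v with h | h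
            · simp [h]
            · nlinarith
          show v < _
          have : 0 ≤ r * 2 ^ a := Nat.zero_le _
          have : 0 ≤ 2 ^ a * m := Nat.zero_le _
          omega
        · have h' : (2 : ℤ) ^ a * m + 3 * (v : ℤ) ^ 2 = M := by exact_mod_cast h2
          show (M : ℤ) - 3 * (v : ℤ) ^ 2 = _
          linear_combination (-1 : ℤ) * h'
    rw [himg, Finset.card_image_of_injOn]
    rintro ⟨m, v⟩ hm ⟨m', v'⟩ hm' hvv
    have hvv' : v = v' := hvv
    subst hvv'
    obtain ⟨-, h2, -, -⟩ := LFT_eq a r M m v hm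
    obtain ⟨-, h3, -, -⟩ := LFT_eq a r M m' v hm'
    have h4 : 2 ^ a * m = 2 ^ a * m' := by omega
    have h5 : m = m' := Nat.eq_of_mul_eq_mul_left (by positivity) h4
    rw [h5]
  · by_cases hI : Ih a r M
    · rw [if_pos hI]
      obtain ⟨u₀, h1, h2⟩ := hI
      have hs : (us a r (M : ℤ)).filter (fun u => 3 * u ^ 2 = M + 2 ^ a * r) = {u₀} := by
        ext u
        rw [mem_filter, mem_singleton]
        constructor
        · rintro ⟨-, h3⟩
          have h4 : u ^ 2 = u₀ ^ 2 := by omega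
          exact Nat.pow_left_injective (by norm_num : 2 ≠ 0) h4
        · rintro rfl
          refine ⟨?_, h2⟩
          rw [hmem]
          refine ⟨?_, h1, ⟨-(r : ℤ), ?_⟩⟩
          · have h3 : u ≤ u ^ 2 := by
              rcases Nat.eq_zero_or_pos u with h | h
              · simp [h]
              · nlinarith
            have : r * 2 ^ a = 2 ^ a * r := mul_comm _ _
            omega
          · have h' : (3 * (u : ℤ) ^ 2) = M + 2 ^ a * r := by exact_mod_cast h2
            rw [h']; ring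
      rw [hs]
      simp
    · rw [if_neg hI]
      have hs : (us a r (M : ℤ)).filter (fun u => 3 * u ^ 2 = M + 2 ^ a * r) = ∅ := by
        rw [Finset.filter_eq_empty_iff]
        intro u hu h
        rw [hmem] at hu
        exact hI ⟨u, hu.2.1, h⟩
      rw [hs]
      simp

end Pool.Agent.OG
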